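import Mathlib

set_option autoImplicit false

namespace Pool.Agent.H.MP_725863_an

open Finset

abbrev E := lp (fun _ : ℕ => ℝ) 1
abbrev R := E →L[ℝ] E

noncomputable def σ : E →L[ℝ] ℝ := lp.tsumCLM ℝ ℕ ℝ

noncomputable def δ (i : ℕ) : E := lp.single 1 i 1

theorem hsn (x : E) : HasSum (fun i => |x i|) ‖x‖ := by
  simpa using lp.hasSum_norm (p := 1) (by simp) x

theorem hss (x : E) : HasSum (fun i => x i) (σ x) := (Summable.of_abs (hsn x).summable).hasSum

theorem σ_le (x : E) : |σ x| ≤ ‖x‖ := (hss x).norm_le_of_bounded (hsn x) fun _ => le_rfl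

def Pv (x : E) : Prop := ∀ i, 0 ≤ x i

theorem Pv.norm {x : E} (h : Pv x) : ‖x‖ = σ x :=
  (hsn x).unique (by simpa [abs_of_nonneg (h _)] using hss x)

theorem Pv.nn {x : E} (h : Pv x) : 0 ≤ σ x := h.norm ▸ norm_nonneg _

theorem Pv.add {x y : E} (h : Pv x) (h' : Pv y) : Pv (x + y) := fun i => add_nonneg (h i) (h' i)

theorem Pv.smul {x : E} (h : Pv x) {c : ℝ} (hc : 0 ≤ c) : Pv (c • x) := fun i => mul_nonneg hc (h i)

theorem Pv.zero : Pv 0 := fun _ => le_rfl

theorem Pv.sum {ι : Type} (s : Finset ι) (f : ι → E) (h : ∀ i ∈ s, Pv (f i)) :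
    Pv (∑ i ∈ s, f i) := sum_induction f Pv (fun _ _ => Pv.add) Pv.zero h

theorem δ_self (i : ℕ) : δ i i = 1 := lp.single_apply_self 1 i 1
theorem δ_ne {i j : ℕ} (h : j ≠ i) : δ i j = 0 := lp.single_apply_ne 1 i 1 h

theorem δ_pv (i : ℕ) : Pv (δ i) := fun j => by
  by_cases h : j = i
  · rw [h, δ_self]
    exact zero_le_one
  · rw [δ_ne h]

theorem δ_norm (i : ℕ) : ‖δ i‖ = 1 := (lp.norm_single (by simp) i 1).trans norm_one

theorem σ_δ (i : ℕ) : σ (δ i) = 1 := (δ_pv i).norm.symm.trans (δ_norm i)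

theorem app_le (x : E) (i : ℕ) : |x i| ≤ ‖x‖ := lp.norm_apply_le_norm (by simp) x i

theorem bnd {Y : Type} [NormedAddCommGroup Y] [NormedSpace ℝ Y] (F : E →L[ℝ] Y) (c : ℝ)
    (h : ∀ i, ‖F (δ i)‖ ≤ c) (x : E) : ‖F x‖ ≤ c * ‖x‖ := by
  refine ((lp.hasSum_single (by simp) x).map F F.continuous).norm_le_of_bounded
    ((hsn x).mul_left c) fun i => ?_
  have : lp.single 1 i (x i) = x i • δ i := by
    rw [δ, ← lp.single_smul, smul_eq_mul, mul_one]
  show ‖F (lp.single 1 i (x i))‖ ≤ _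
  rw [this, map_smul, norm_smul, mul_comm]
  exact mul_le_mul_of_nonneg_right (h i) (abs_nonneg _)

open Classical in
noncomputable def D (W : Set ℕ) : R := LinearMap.mkContinuous
  { toFun := fun x => ⟨fun i => if i ∈ W then x i else 0,
      (lp.memℓp x).mono' fun i => by split_ifs <;> simp⟩
    map_add' := fun x y => lp.ext (funext fun i => by
      show (if i ∈ W then x i + y i else 0) = (if i ∈ W then x i else 0) + if i ∈ W then y i else 0
      split_ifs <;> simp)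
    map_smul' := fun c x => lp.ext (funext fun i => by
      show (if i ∈ W then c * x i else 0) = c * if i ∈ W then x i else 0
      split_ifs <;> simp) } 1 fun x => by
  rw [one_mul]
  refine hasSum_le (fun i => ?_) (hsn _) (hsn x)
  show |if i ∈ W then x i else 0| ≤ _
  split_ifs <;> simp

theorem D_mem {W : Set ℕ} {i : ℕ} (x : E) (h : i ∈ W) : D W x i = x i := if_pos h
theorem D_not {W : Set ℕ} {i : ℕ} (x : E) (h : i ∉ W) : D W x i = 0 := if_neg h

theorem D_add (W : Set ℕ) : D W + D Wᶜ = 1 := by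
  ext x i
  show D W x i + D Wᶜ x i = x i
  by_cases h : i ∈ W
  · rw [D_mem x h, D_not x (not_not.2 h), add_zero]
  · rw [D_not x h, D_mem x h, zero_add]

theorem D_D (W : Set ℕ) : D W * D W = D W := by
  ext x i
  show D W (D W x) i = D W x i
  by_cases h : i ∈ W
  · rw [D_mem _ h]
  · rw [D_not _ h, D_not _ h]

theorem D_δ {W : Set ℕ} {i : ℕ} (h : i ∈ W) : D W (δ i) = δ i := by
  ext j
  by_cases h' : j ∈ W
  · exact D_mem _ h'
  · rw [D_not _ h', δ_ne fun e : j = i => h' (e ▸ h)]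

theorem D_δ' {W : Set ℕ} {i : ℕ} (h : i ∉ W) : D W (δ i) = 0 := by
  ext j
  by_cases h' : j ∈ W
  · rw [D_mem _ h', δ_ne fun e : j = i => h (e ▸ h')]
    rfl
  · exact D_not _ h'

def Po (F : R) : Prop := ∀ x, Pv x → Pv (F x)

theorem Po.D (W : Set ℕ) : Po (D W) := fun x hx i => by
  by_cases h : i ∈ W
  · rw [D_mem x h]
    exact hx i
  · rw [D_not x h]

theorem Po.mul {F G : R} (h : Po F) (h' : Po G) : Po (F * G) := fun x hx => h _ (h' x hx)
theorem Po.add {F G : R} (h : Po F) (h' : Po G) : Po (F + G) := fun x hx => (h x hx).add (h' x hx)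
theorem Po.one : Po 1 := fun _ h => h
theorem Po.zero : Po 0 := fun _ _ => Pv.zero
theorem Po.smul {F : R} (h : Po F) {c : ℝ} (hc : 0 ≤ c) : Po (c • F) := fun x hx => (h x hx).smul hc

theorem Po.pow {F : R} (h : Po F) (n : ℕ) : Po (F ^ n) := by
  induction n with
  | zero => exact pow_zero F ▸ Po.one
  | succ n ih => exact pow_succ F n ▸ ih.mul h

theorem σ_D (W : Set ℕ) (x : E) : σ (D W x) + σ (D Wᶜ x) = σ x := by
  rw [← map_add, ← add_apply, D_add, one_apply_eq_self]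

structure Mk (P : R) : Prop where
  po : Po P
  sg : ∀ x, σ (P x) = σ x

theorem Mk.of {P : R} (h : Po P) (h' : ∀ i, σ (P (δ i)) = 1) : Mk P := ⟨h, fun x => by
  have := bnd (σ.comp P - σ) 0 (fun i => by simp [h', σ_δ]) x
  rw [zero_mul, norm_le_zero_iff] at this
  exact sub_eq_zero.1 this⟩

theorem Mk.le {P : R} (h : Mk P) (x : E) : ‖P x‖ ≤ ‖x‖ := by
  simpa using bnd P 1 (fun i => by rw [(h.po _ (δ_pv i)).norm, h.sg, σ_δ]) x

theorem Mk.pow {P : R} (h : Mk P) (n : ℕ) : Mk (P ^ n) := ⟨h.po.pow n, fun x => by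
  induction n with
  | zero => simp
  | succ n ih => rw [pow_succ', mul_apply_eq_comp, h.sg, ih]⟩

noncomputable def ε (P : R) (i : ℕ) : ℝ := 1 - P (δ i) i

theorem Mk.pv {P : R} (h : Mk P) (i : ℕ) {r : ℝ} (hr : r ≤ 1 - ε P i) :
    Pv (P (δ i) - r • δ i) := fun j => by
  show 0 ≤ P (δ i) j - r * δ i j
  by_cases e : j = i
  · rw [e, δ_self]
    unfold ε at hr
    linarith
  · rw [δ_ne e, mul_zero, sub_zero]
    exact h.po _ (δ_pv i) j

theorem Mk.le_ε {P : R} (h : Mk P) (i : ℕ) : ‖P (δ i) - δ i‖ ≤ 2 * ε P i := by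
  have h1 := h.pv i le_rfl
  have h2 := h1.nn
  have h3 := h1.norm
  rw [map_sub, map_smul, h.sg, σ_δ, smul_eq_mul] at h2 h3
  have : P (δ i) - δ i = (P (δ i) - (1 - ε P i) • δ i) - ε P i • δ i := by
    rw [sub_smul, one_smul]
    abel
  rw [this]
  refine (norm_sub_le _ _).trans ?_
  rw [h3, norm_smul, δ_norm, Real.norm_eq_abs, abs_of_nonneg (by linarith)]
  linarith

theorem ε_le (P : R) (i : ℕ) : ε P i ≤ ‖P (δ i) - δ i‖ := by
  refine le_trans ?_ (app_le _ i)
  show _ ≤ |P (δ i) i - δ i i|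
  rw [δ_self, abs_sub_comm]
  exact le_abs_self _

theorem Mk.hold {P : R} (h : Mk P) {W : Set ℕ} {r : ℝ} (hr : ∀ i ∈ W, r ≤ 1 - ε P i) :
    Po ((P - r • 1) * D W) := fun x hx i => by
  have h0 := Po.D W x hx
  show 0 ≤ P (D W x) i - r * D W x i
  by_cases hi : i ∈ W
  · have h1 : Pv (D W x - D W x i • δ i) := fun j => by
      show 0 ≤ D W x j - D W x i * δ i j
      by_cases e : j = i
      · rw [e, δ_self, mul_one, sub_self]
      · rw [δ_ne e, mul_zero, sub_zero]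
        exact h0 j
    have h2 := h.po _ h1 i
    rw [map_sub, map_smul] at h2
    change 0 ≤ P (D W x) i - D W x i * P (δ i) i at h2
    have h3 := hr i hi
    unfold ε at h3
    nlinarith [h0 i]
  · rw [D_not x hi, mul_zero, sub_zero]
    exact h.po _ h0 i

theorem lemB {P : R} (h : Mk P) {M : ℝ} (hM : 0 < M) {n : ℕ} (hn : ∀ x, ‖x‖ ≤ M * ‖(P ^ n) x‖)
    (j : ℕ) (he : 0 < ε P j) (hM1 : 1 ≤ M) :
    1 / (8 * M) ≤ σ (D {i | ε P j / (4 * M) < ε P i} ((P ^ n) (δ j))) := by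
  set η := ε P j / (4 * M) with hη
  set F := {i | η < ε P i}
  have η0 : 0 ≤ η := by positivity
  have hj : j ∈ F := by
    show ε P j / (4 * M) < ε P j
    exact div_lt_self he (by linarith)
  have hU : Po (D F * P) := (Po.D F).mul h.po
  let a : ℕ → E := fun m => ((D F * P) ^ m) (δ j)
  have a0 : ∀ m, Pv (a m) := fun m => hU.pow m _ (δ_pv j)
  have a1 : ∀ m, a (m + 1) = D F (P (a m)) := fun m => by
    simp only [a, pow_succ', mul_apply_eq_comp]
  have a2 : ∀ m, σ (a (m + 1)) + σ (D Fᶜ (P (a m))) = σ (a m) := fun m => by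
    rw [a1, σ_D, h.sg]
  have a3 : ∀ m, Pv (D Fᶜ (P (a m))) := fun m => Po.D _ _ (h.po _ (a0 m))
  have a4 : ∀ m, P (a m) = a (m + 1) + D Fᶜ (P (a m)) := fun m => by
    rw [a1, ← add_apply, D_add, one_apply_eq_self]
  have s1 : ∀ x, ‖(P - 1) (D Fᶜ x)‖ ≤ 2 * η * ‖x‖ := bnd ((P - 1) * D Fᶜ) _ fun i => by
    by_cases hi : i ∈ Fᶜ
    · rw [mul_apply_eq_comp, D_δ hi]
      exact (h.le_ε i).trans (by linarith [not_lt.1 (show ¬ η < ε P i from hi)])
    · rw [mul_apply_eq_comp, D_δ' hi, map_zero, norm_zero]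
      linarith
  have e1 : ∀ m, ‖(P ^ m) ((P - 1) (δ j)) - (P - 1) (a m)‖ ≤ 2 * η * (1 - σ (a m)) := by
    intro m
    induction m with
    | zero => simp [a, σ_δ]
    | succ m ih =>
      have : (P ^ (m + 1)) ((P - 1) (δ j)) - (P - 1) (a (m + 1)) =
          P ((P ^ m) ((P - 1) (δ j)) - (P - 1) (a m)) + (P - 1) (D Fᶜ (D Fᶜ (P (a m)))) := by
        rw [← mul_apply_eq_comp (D Fᶜ), D_D, eq_sub_of_add_eq (a4 m).symm, pow_succ']
        simp only [map_sub, sub_apply, one_apply_eq_self,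
          mul_apply_eq_comp]
        abel
      rw [this]
      refine (norm_add_le _ _).trans ((add_le_add ((h.le _).trans ih) (s1 _)).trans ?_)
      rw [(a3 m).norm, eq_sub_of_add_eq (a2 m)]
      exact le_of_eq (by ring)
  have e2 : ‖a (n + 1) - a n‖ ≤ 2 * ε P j * σ (a n) := by
    have h1 := hU.pow n _ (Po.D F _ (h.pv j le_rfl))
    have h2 : ((D F * P) ^ n) (D F (P (δ j) - (1 - ε P j) • δ j)) =
        a (n + 1) - (1 - ε P j) • a n := by
      simp only [a, map_sub, map_smul, D_δ hj, pow_succ, mul_apply_eq_comp]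
    rw [h2] at h1
    have h3 : a (n + 1) - a n = (a (n + 1) - (1 - ε P j) • a n) - ε P j • a n := by
      rw [sub_smul, one_smul]
      abel
    rw [h3]
    refine (norm_sub_le _ _).trans ?_
    rw [h1.norm, norm_smul, (a0 n).norm, map_sub, map_smul, Real.norm_eq_abs, abs_of_pos he,
      smul_eq_mul]
    linarith [a2 n, (a3 n).nn]
  have e3 : ‖(P - 1) (a n)‖ ≤ 4 * ε P j * σ (a n) := by
    have : (P - 1) (a n) = (a (n + 1) - a n) + D Fᶜ (P (a n)) := by
      rw [sub_apply, one_apply_eq_self]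
      nth_rewrite 1 [a4 n]
      abel
    rw [this]
    refine (norm_add_le _ _).trans ?_
    have h1 : |σ (a (n + 1) - a n)| ≤ ‖a (n + 1) - a n‖ := σ_le _
    rw [map_sub] at h1
    rw [(a3 n).norm]
    linarith [a2 n, neg_abs_le (σ (a (n + 1)) - σ (a n))]
  have e4 : ∀ m, Pv ((P ^ m) (δ j) - a m) := by
    intro m
    induction m with
    | zero => simpa [a] using Pv.zero
    | succ m ih =>
      have := (h.po _ ih).add (a3 m)
      rwa [map_sub, ← mul_apply_eq_comp, ← pow_succ', a4 m, sub_add_eq_sub_sub,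
        ← a4 m, sub_add_cancel] at this
  have e5 : D F (a n) = a n := by
    cases n with
    | zero => exact D_δ hj
    | succ n => rw [a1, ← mul_apply_eq_comp (D F), D_D]
  have e6 := (Po.D F _ (e4 n)).nn
  rw [map_sub, map_sub, e5] at e6
  have e7 := (ε_le P j).trans (hn _)
  have e8 : ‖(P ^ n) ((P - 1) (δ j))‖ ≤ 2 * η + 4 * ε P j * σ (a n) := by
    have := norm_le_insert' ((P ^ n) ((P - 1) (δ j))) ((P - 1) (a n))
    nlinarith [e1 n, (a0 n).nn]
  have e9 : ε P j ≤ M * (2 * η + 4 * ε P j * σ (a n)) :=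
    e7.trans (mul_le_mul_of_nonneg_left e8 hM.le)
  have : M * (2 * η) = ε P j / 2 := by
    rw [hη]
    field_simp
    ring
  rw [div_le_iff₀ (by positivity)]
  have : 1 ≤ σ (a n) * (8 * M) := by nlinarith
  nlinarith

end Pool.Agent.H.MP_725863_an
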