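import Pool.Agent.H.MP_725863_an.A

set_option autoImplicit false

namespace Pool.Agent.H.MP_725863_an

open Finset PowerSeries

noncomputable def nb (θ : ℝ) (k u : ℕ) : ℝ := θ ^ (k + 1) * (((u + k).choose k : ℝ) * (1 - θ) ^ u)

theorem nb0 {θ : ℝ} (h0 : 0 < θ) (h1 : θ ≤ 1 / 2) (k : ℕ) : HasSum (nb θ k) 1 := by
  have := (hasSum_choose_mul_geometric_of_norm_lt_one k (r := 1 - θ)
    (by rw [Real.norm_eq_abs, abs_lt]; constructor <;> linarith)).mul_left (θ ^ (k + 1))
  rwa [sub_sub_cancel, mul_one_div_cancel (by positivity)] at this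

theorem nb_succ {θ : ℝ} (h0 : 0 < θ) (k v : ℕ) :
    nb θ k (v + 1) * ((v + 1 : ℕ) : ℝ) = (k + 1) * (1 - θ) / θ * nb θ (k + 1) v := by
  have h := Nat.choose_succ_right_eq (v + 1 + k) k
  rw [show v + 1 + k - k = v + 1 by omega] at h
  have h' : (((v + 1 + k).choose (k + 1) : ℕ) : ℝ) * (k + 1) = (v + 1 + k).choose k * (v + 1) := by
    exact_mod_cast h
  unfold nb
  rw [show v + (k + 1) = v + 1 + k by omega]
  push_cast
  field_simp
  linear_combination (-θ ^ (k + 1) * (1 - θ) ^ v * (1 - θ) * θ) * h'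

theorem nb1 {θ : ℝ} (h0 : 0 < θ) (h1 : θ ≤ 1 / 2) (k : ℕ) :
    HasSum (fun u : ℕ => nb θ k u * u) ((k + 1) * (1 - θ) / θ) := by
  rw [← hasSum_nat_add_iff' 1]
  simp only [nb_succ h0]
  simpa using (nb0 h0 h1 (k + 1)).mul_left ((k + 1) * (1 - θ) / θ)

theorem nb2 {θ : ℝ} (h0 : 0 < θ) (h1 : θ ≤ 1 / 2) (k : ℕ) :
    HasSum (fun u : ℕ => nb θ k u * u * u)
      ((k + 1) * (1 - θ) / θ * (((k + 1 : ℕ) + 1) * (1 - θ) / θ + 1)) := by
  rw [← hasSum_nat_add_iff' 1]
  simp only [nb_succ h0]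
  have := ((nb1 h0 h1 (k + 1)).add (nb0 h0 h1 (k + 1))).mul_left ((k + 1) * (1 - θ) / θ)
  rw [sum_range_one, Nat.cast_zero, mul_zero, sub_zero]
  have e : (fun n : ℕ => (k + 1) * (1 - θ) / θ * nb θ (k + 1) n * ((n + 1 : ℕ) : ℝ)) = fun i : ℕ =>
      (k + 1) * (1 - θ) / θ * (nb θ (k + 1) i * i + nb θ (k + 1) i) := by
    ext v
    push_cast
    ring
  rw [e]
  exact this

theorem nb_nn {θ : ℝ} (h0 : 0 < θ) (h1 : θ ≤ 1 / 2) (k u : ℕ) : 0 ≤ nb θ k u := by
  have : 0 ≤ 1 - θ := by linarith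
  unfold nb
  positivity

noncomputable def γ (θ : ℝ) : ℝ⟦X⟧ := C θ * mk fun n => (1 - θ) ^ n

theorem γ_pow (θ : ℝ) (k u : ℕ) : coeff u (γ θ ^ (k + 1)) = nb θ k u := by
  have : (mk fun n => (1 - θ) ^ n) = rescale (1 - θ) (mk 1) := by
    ext n
    simp
  rw [γ, mul_pow, ← map_pow, coeff_C_mul, this, ← map_pow, mk_one_pow_eq_mk_choose_add,
    coeff_rescale, coeff_mk, nb, add_comm k u]
  ring

theorem nb_tv {θ d : ℝ} (h0 : 0 < θ) (h1 : θ ≤ 1 / 2) (hd : 0 < d) {k : ℕ}
    (hk : 2 ≤ (k + 1) * d ^ 2) (m : ℕ) :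
    ∑ u ∈ range m, |coeff u (γ θ ^ (k + 1) * (1 - X * γ θ))| ≤ d := by
  have r0 : 0 < 1 - θ := by linarith
  set K : ℝ := (k + 1) * (1 - θ) with hK
  have K0 : 0 < K := by positivity
  have e1 : ∀ u, coeff u (γ θ ^ (k + 1) * (1 - X * γ θ)) = nb θ k u * (1 - u * θ / K) := by
    intro u
    rw [mul_sub, mul_one, ← mul_assoc, mul_comm _ X, mul_assoc, ← pow_succ, map_sub, γ_pow]
    cases u with
    | zero => simp
    | succ v =>
      rw [coeff_succ_X_mul, γ_pow]
      have := nb_succ h0 k v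
      rw [← hK] at this
      field_simp at this ⊢
      linarith
  have e2 := ((((nb2 h0 h1 k).mul_left (θ ^ 2 / K ^ 2)).sub ((nb1 h0 h1 k).mul_left
    (2 * θ / K))).add (nb0 h0 h1 k)).mul_left (1 / (2 * d)) |>.add
      ((nb0 h0 h1 k).mul_left (d / 2))
  refine (sum_le_sum fun u _ => ?_).trans ((sum_le_hasSum (range m) (fun u _ => ?_) e2).trans ?_)
  · rw [e1, abs_mul, abs_of_nonneg (nb_nn h0 h1 k u)]
    have h2 : |1 - u * θ / K| ≤ 1 / (2 * d) * (1 - u * θ / K) ^ 2 + d / 2 := by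
      rw [← sq_abs]
      have := sq_nonneg (|1 - u * θ / K| - d)
      rw [div_mul_eq_mul_div, div_add' _ _ _ (by positivity), le_div_iff₀ (by positivity)]
      nlinarith
    refine (mul_le_mul_of_nonneg_left h2 (nb_nn h0 h1 k u)).trans (le_of_eq ?_)
    field_simp
    ring
  · have := nb_nn h0 h1 k u
    have h2 : θ ^ 2 / K ^ 2 * (nb θ k u * u * u) - 2 * θ / K * (nb θ k u * u) + nb θ k u =
        nb θ k u * (1 - u * θ / K) ^ 2 := by
      field_simp
      ring
    rw [h2]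
    positivity
  · have h2 : θ ^ 2 / K ^ 2 * (K / θ * (((k + 1 : ℕ) + 1) * (1 - θ) / θ + 1)) -
        2 * θ / K * (K / θ) + 1 = 1 / K := by
      push_cast
      rw [show ((k : ℝ) + 1 + 1) * (1 - θ) = K + (1 - θ) by ring]
      field_simp
      ring
    rw [h2]
    have h3 : 1 / K ≤ d ^ 2 := by
      rw [div_le_iff₀ K0, hK]
      nlinarith [sq_nonneg d, mul_nonneg (by positivity : (0 : ℝ) ≤ (k + 1) * d ^ 2)
        (by linarith : 0 ≤ 1 / 2 - θ)]
    have h4 : 1 / (2 * d) * (1 / K) ≤ 1 / (2 * d) * d ^ 2 := by gcongr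
    have h5 : 1 / (2 * d) * d ^ 2 = d / 2 := by field_simp
    linarith

theorem alg {K S : Type} [CommRing K] [Ring S] [Algebra K S] {x ρ g : K} (hg : g * (1 - x * ρ) = 1)
    {d b a T B : S} (hd : d * d = d) (hb : b * d = 0) (ha : a * d = a)
    (hT : T * (1 - x • (ρ • d + b)) = 1) (hB : (1 - x • b) * B = 1) :
    T * d = g • d ∧ a * T = g • (a * B) := by
  have h1 : T * d = g • d := by
    have h2 : (1 - x • (ρ • d + b)) * d = (1 - x * ρ) • d := by
      rw [sub_mul, one_mul, smul_mul_assoc, add_mul, smul_mul_assoc, hd, hb, add_zero, sub_smul,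
        one_smul, mul_smul]
    calc T * d = g • (T * ((1 - x • (ρ • d + b)) * d)) := by
          rw [h2, mul_smul_comm, smul_smul, hg, one_smul]
      _ = g • d := by rw [← mul_assoc, hT, one_mul]
  refine ⟨h1, ?_⟩
  have h2 : T = B + (x * ρ * g) • (d * B) := by
    calc T = T * ((1 - x • (ρ • d + b)) + (x * ρ) • d) * B := by
          rw [mul_assoc, smul_add, smul_smul, show 1 - ((x * ρ) • d + x • b) + (x * ρ) • d =
            1 - x • b by abel, hB, mul_one]
      _ = _ := by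
          rw [mul_add, hT, mul_smul_comm, h1, smul_smul, add_mul, one_mul, smul_mul_assoc]
  rw [h2, mul_add, mul_smul_comm, ← mul_assoc, ha]
  nth_rewrite 1 [← one_smul K (a * B)]
  rw [← add_smul]
  congr 1
  linear_combination (-1 : K) * hg

abbrev S := R⟦X⟧

noncomputable def Gm (U : R) : S := mk fun n => U ^ n

noncomputable def ι : ℝ⟦X⟧ →+* S := map (algebraMap ℝ R)

theorem ι_comm (c : ℝ⟦X⟧) (F : S) : ι c * F = F * ι c := by
  ext1 n
  rw [coeff_mul, coeff_mul, ← Nat.sum_antidiagonal_swap]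
  exact sum_congr rfl fun p _ => by
    simp only [ι, coeff_map, Prod.fst_swap, Prod.snd_swap]
    exact Algebra.commutes _ _

theorem gm1 (U : R) : Gm U = 1 + X * (C U * Gm U) := by
  ext1 n
  cases n with
  | zero => simp [Gm]
  | succ n => simp [Gm, coeff_succ_X_mul, coeff_one, pow_succ']

theorem gm2 (U : R) : Gm U = 1 + Gm U * (X * C U) := by
  rw [← mul_assoc, (commute_X _).eq, mul_assoc]
  ext1 n
  cases n with
  | zero => simp [Gm]
  | succ n => simp [Gm, coeff_succ_X_mul, coeff_one, pow_succ]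

theorem rec0 (U : R) (F : S) : coeff 0 (Gm U * F) = coeff 0 F := by
  simp [Gm, coeff_mul]

theorem rec1 (U : R) (F : S) (n : ℕ) :
    coeff (n + 1) (Gm U * F) = coeff (n + 1) F + U * coeff n (Gm U * F) := by
  nth_rewrite 1 [gm1]
  rw [add_mul, one_mul, map_add, mul_assoc, coeff_succ_X_mul, mul_assoc, coeff_C_mul]

def PS (F : S) : Prop := ∀ n, Po (coeff n F)

theorem PS.mul {F G : S} (h : PS F) (h' : PS G) : PS (F * G) := fun n => by
  rw [coeff_mul]
  exact sum_induction _ Po (fun _ _ => Po.add) Po.zero fun p _ => (h _).mul (h' _)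

theorem PS.C {A : R} (h : Po A) : PS (C A) := fun n => by
  rw [coeff_C]
  split_ifs
  exacts [h, Po.zero]

theorem PS.one : PS 1 := PS.C Po.one

theorem PS.X : PS X := fun n => by
  rw [coeff_X]
  split_ifs
  exacts [Po.one, Po.zero]

theorem PS.gm {U : R} (h : Po U) : PS (Gm U) := fun n => by
  rw [Gm, coeff_mk]
  exact h.pow n

theorem PS.pow {F : S} (h : PS F) (n : ℕ) : PS (F ^ n) := by
  induction n with
  | zero => exact pow_zero F ▸ PS.one
  | succ n ih => exact pow_succ F n ▸ ih.mul h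

theorem PS.sum {F : ℕ → S} (h : ∀ j, PS (F j)) (k : ℕ) : PS (∑ j ∈ range k, F j) := fun n => by
  rw [map_sum]
  exact sum_induction _ Po (fun _ _ => Po.add) Po.zero fun p _ => h _ _

noncomputable def fl (F : S) (m : ℕ) : E →L[ℝ] ℝ := ∑ s ∈ range (m + 1), σ.comp (coeff s F)

theorem fl_app (F : S) (m : ℕ) (x : E) : fl F m x = ∑ s ∈ range (m + 1), σ (coeff s F x) := by
  simp [fl]

theorem fl_nn {F : S} (h : PS F) (m : ℕ) {x : E} (hx : Pv x) : 0 ≤ fl F m x := by
  rw [fl_app]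
  exact sum_nonneg fun s _ => (h s x hx).nn

theorem mass {U A : R} (h : ∀ x, σ (U x) + σ (A x) = σ x) (F : S) (x : E) (m : ℕ) :
    fl (X * (C A * (Gm U * F))) m x + σ (coeff m (Gm U * F) x) = fl F m x := by
  induction m with
  | zero => simp [fl_app, rec0]
  | succ m ih =>
    rw [fl_app, sum_range_succ, ← fl_app, fl_app F, sum_range_succ, ← fl_app, ← ih,
      coeff_succ_X_mul, coeff_C_mul, rec1, add_apply, map_add, mul_apply_eq_comp,
      mul_apply_eq_comp]
    linarith [h (coeff m (Gm U * F) x)]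

theorem mass_le {U A : R} (h : ∀ x, σ (U x) + σ (A x) = σ x) (hU : Po U) {F : S} (hF : PS F)
    {x : E} (hx : Pv x) (m k : ℕ) : PS (X * (C A * Gm U)) →
    fl ((X * (C A * Gm U)) ^ k * F) m x ≤ fl F m x := fun hp => by
  induction k with
  | zero => simp
  | succ k ih =>
    have := mass h ((X * (C A * Gm U)) ^ k * F) x m
    have h2 := (((PS.gm hU).mul ((hp.pow k).mul hF)) m x hx).nn
    rw [pow_succ', mul_assoc, mul_assoc, mul_assoc]
    linarith

theorem outσ {P : R} (h : Mk P) (F : S) (x : E) (m : ℕ) :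
    σ (coeff m (Gm P * F) x) = fl F m x := by
  have := mass (U := P) (A := 0) (fun x => by simp [h.sg]) F x m
  simpa [fl_app] using this

theorem outN {P : R} (h : Mk P) (F : S) (x : E) (m : ℕ) :
    ‖coeff m (Gm P * F) x‖ ≤ ∑ s ∈ range (m + 1), ‖coeff s F x‖ := by
  induction m with
  | zero => simp [rec0]
  | succ m ih =>
    rw [rec1, add_apply, sum_range_succ, add_comm, mul_apply_eq_comp]
    exact (norm_add_le _ _).trans (add_le_add_left ((h.le _).trans ih) _)

theorem conv (c : ℝ⟦X⟧) {F : S} (hF : PS F) {x : E} (hx : Pv x) (m : ℕ) :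
    ∑ s ∈ range (m + 1), ‖coeff s (ι c * F) x‖ ≤
      (∑ s ∈ range (m + 1), |coeff s c|) * fl F m x := by
  have h1 : ∀ s, ‖coeff s (ι c * F) x‖ ≤
      ∑ p ∈ antidiagonal s, |coeff p.1 c| * σ (coeff p.2 F x) := fun s => by
    rw [coeff_mul, _root_.sum_apply]
    refine (norm_sum_le _ _).trans (sum_le_sum fun p _ => le_of_eq ?_)
    rw [ι, coeff_map, ← Algebra.smul_def, smul_apply, norm_smul, (hF _ x hx).norm,
      Real.norm_eq_abs]
  refine (sum_le_sum fun s _ => h1 s).trans ?_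
  rw [← sum_biUnion, fl_app, sum_mul_sum, ← sum_product']
  · refine sum_le_sum_of_subset_of_nonneg (fun p hp => ?_)
      fun p _ _ => mul_nonneg (abs_nonneg _) (hF _ x hx).nn
    simp only [mem_biUnion, mem_range, HasAntidiagonal.mem_antidiagonal, mem_product] at hp ⊢
    omega
  · intro s _ t _ h
    refine disjoint_left.2 fun p h1 h2 => h ?_
    rw [← HasAntidiagonal.mem_antidiagonal.1 h1, ← HasAntidiagonal.mem_antidiagonal.1 h2]

end Pool.Agent.H.MP_725863_an
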