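import Pool.Agent.H.MP_725863_an.B

set_option autoImplicit false

namespace Pool.Agent.H.MP_725863_an

open Finset PowerSeries

theorem csm (r : ℝ) (F : S) (n : ℕ) : coeff n (r • F) = r • coeff n F := rfl

theorem fl_one (m : ℕ) (x : E) : fl 1 m x = σ x := by
  rw [fl_app, sum_range_succ']
  simp [coeff_one]

theorem fl_add (F G : S) (m : ℕ) (x : E) : fl (F + G) m x = fl F m x + fl G m x := by
  simp [fl_app, sum_add_distrib]

theorem fl_C (F : S) (A : R) (m : ℕ) (x : E) : fl (F * C A) m x = fl F m (A x) := by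
  simp [fl_app, coeff_mul_C]

theorem flm {P : R} (h : Mk P) (Q F : S) (m : ℕ) (x : E) : fl (Q * F) m x =
    ∑ p ∈ HasAntidiagonal.antidiagonal m, fl Q p.1 (coeff p.2 F x) := by
  rw [← outσ h, ← mul_assoc, coeff_mul, _root_.sum_apply, map_sum]
  exact sum_congr rfl fun p _ => outσ h _ _ _

theorem γ_sum {θ : ℝ} (h0 : 0 < θ) (h1 : θ ≤ 1 / 2) (m : ℕ) :
    ∑ s ∈ range (m + 1), |coeff s (X * γ θ)| ≤ 1 := by
  rw [sum_range_succ']
  simp only [coeff_succ_X_mul, coeff_zero_X_mul, abs_zero, add_zero]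
  refine (le_of_eq (sum_congr rfl fun s _ => ?_)).trans
    (sum_le_hasSum _ (fun u _ => nb_nn h0 h1 0 u) (nb0 h0 h1 0))
  rw [← γ_pow, zero_add, pow_one, abs_of_nonneg]
  have := nb_nn h0 h1 0 s
  rwa [← γ_pow, zero_add, pow_one] at this

theorem fac (W : Set ℕ) {θ : ℝ} (h0 : 0 < θ) (A B : R) (hA : A * D W = A)
    (hB : B * D W = 0) (k : ℕ) :
    θ • ((X * (C A * Gm ((1 - θ) • D W + B))) ^ (k + 1) * C (D W)) =
      ι (X * γ θ) * ((X * (C A * Gm ((1 - θ) • D W + B))) ^ k * C A) ∧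
    (X * (C A * Gm ((1 - θ) • D W + B))) ^ k =
      ι (γ θ ^ k) * (X * (C (θ⁻¹ • A) * Gm B)) ^ k := by
  let _ : Algebra ℝ⟦X⟧ S := ι.toAlgebra' ι_comm
  have sm : ∀ (c : ℝ⟦X⟧) (F : S), c • F = ι c * F := fun _ _ => rfl
  have iX : ι X = X := map_X _
  have iC : ∀ (r : ℝ) (F : R), ι (C r) * C F = C (r • F) := fun r F => by
    rw [ι, map_C, ← map_mul, Algebra.smul_def]
  have hg : (mk fun n => (1 - θ) ^ n) * (1 - X * C (1 - θ)) = (1 : ℝ⟦X⟧) := by
    rw [mul_sub, mul_one, ← mul_assoc, mul_comm _ X, mul_assoc]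
    ext n
    cases n with
    | zero => simp
    | succ n =>
      rw [map_sub, coeff_succ_X_mul, coeff_mul_C, coeff_mk, coeff_mk, coeff_one, pow_succ]
      simp
  obtain ⟨h1, h2⟩ := alg hg (d := C (D W)) (b := C B) (a := C A) (T := Gm ((1 - θ) • D W + B))
    (B := Gm B) (by rw [← map_mul, D_D]) (by rw [← map_mul, hB, map_zero]) (by rw [← map_mul, hA])
    (by
      rw [sm, sm, iX, iC, ← map_add, mul_sub, mul_one]
      nth_rewrite 1 [gm2]
      abel)
    (by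
      rw [sm, iX, sub_mul, one_mul, mul_assoc]
      nth_rewrite 1 [gm1]
      abel)
  have sθ : ∀ F : S, θ • F = (C θ : ℝ⟦X⟧) • F := fun F => by
    rw [sm, ι, map_C]
    ext1 n
    rw [coeff_C_mul, csm, Algebra.smul_def]
  have xs : ∀ F : S, X * F = (X : ℝ⟦X⟧) • F := fun F => by rw [sm, iX]
  refine ⟨?_, ?_⟩
  · rw [pow_succ, mul_assoc, mul_assoc X, mul_assoc (C A), h1, mul_smul_comm, ← map_mul, hA,
      xs (_ • _), smul_smul, mul_smul_comm, sθ, smul_smul, ← sm, γ]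
    congr 1
    ring
  · rw [← sm, ← smul_pow, h2, ← iC, mul_assoc, ← sm, mul_smul_comm, mul_smul_comm, smul_smul, γ,
      mul_right_comm, ← map_mul, mul_inv_cancel₀ h0.ne', map_one, one_mul]

theorem dec {O T Φ : S} (h : O = T + O * Φ) (k : ℕ) :
    O = ∑ j ∈ range k, T * Φ ^ j + O * Φ ^ k := by
  induction k with
  | zero => simp
  | succ k ih =>
    rw [sum_range_succ, pow_succ', ← mul_assoc, add_assoc, ← add_mul, ← h]
    exact ih

theorem d0 {P U A : R} (eP : P = U + A) : Gm P = Gm U + Gm P * (X * (C A * Gm U)) := by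
  have e1 : Gm P * (1 - X * C P) = 1 := by
    rw [mul_sub, mul_one]
    nth_rewrite 1 [gm2]
    abel
  have e2 : (1 - X * C U) * Gm U = 1 := by
    rw [sub_mul, one_mul, mul_assoc]
    nth_rewrite 1 [gm1]
    abel
  calc Gm P = Gm P * (((1 - X * C P) + X * C A) * Gm U) := by
        rw [show (1 - X * C P) + X * C A = 1 - X * C U by
          rw [eP, map_add, mul_add]
          abel, e2, mul_one]
    _ = _ := by rw [add_mul, mul_add, ← mul_assoc, e1, one_mul, mul_assoc X]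

theorem key {P A Dw : R} {T Φ Ψ : S} (h : Mk P) {M θ : ℝ} (hM : 0 < M) (h0 : 0 < θ)
    (h1 : θ ≤ 1 / 2) {m k : ℕ} (hn : ∀ x, ‖x‖ ≤ M * ‖(P ^ m) x‖) (pA : Po A) (pT : PS T)
    (pΦ : PS Φ) (pΨ : PS Ψ) (d0 : Gm P = T + Gm P * Φ) (hk : 2 ≤ (k + 1 : ℝ) * (1 / (4 * M)) ^ 2)
    (f1 : θ • (Φ ^ (k + 1 + 1) * C Dw) = ι (X * γ θ) * (Φ ^ (k + 1) * C A))
    (f2 : Φ ^ (k + 1) = ι (γ θ ^ (k + 1)) * Ψ ^ (k + 1)) {x : E} (hx : Pv x) (x1 : σ x = 1)
    (hD : Dw x = x) (aw : σ (A x) = θ) (e1 : P x - x = A x - θ • x) (hε : θ / 2 ≤ ‖P x - x‖)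
    (g5 : fl (Ψ ^ (k + 1) * C A) m x ≤ θ) : fl (Φ ^ (k + 1 + 1)) m x ≤ 1 - 1 / (8 * M) := by
  have pAl : ∀ K, PS (∑ j ∈ range K, T * Φ ^ j) := fun K =>
    PS.sum (fun j => pT.mul (pΦ.pow j)) K
  have d1 : ∀ K x, σ (coeff m (∑ j ∈ range K, T * Φ ^ j) x) + fl (Φ ^ K) m x = σ x := by
    intro K x
    rw [← outσ h, ← map_add, ← add_apply, ← map_add, ← dec d0, Gm, coeff_mk, (h.pow m).sg]
  have pw := pA _ hx
  have g1 : ∀ s, θ • coeff s (Φ ^ (k + 1 + 1)) x =
      coeff s (ι (X * γ θ) * (Φ ^ (k + 1) * C A)) x := fun s => by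
    rw [← f1, csm, coeff_mul_C, smul_apply, mul_apply_eq_comp, hD]
  have g2 : θ * fl (Φ ^ (k + 1 + 1)) m x ≤ fl (Φ ^ (k + 1)) m (A x) := by
    have := (conv (X * γ θ) ((pΦ.pow (k + 1)).mul (PS.C pA)) hx m).trans
      (mul_le_of_le_one_left (fl_nn ((pΦ.pow (k + 1)).mul (PS.C pA)) m hx) (γ_sum h0 h1 m))
    rw [fl_C] at this
    refine le_trans ?_ this
    rw [fl_app, mul_sum]
    refine sum_le_sum fun s _ => ?_
    rw [← g1]
    refine le_trans ?_ ((le_abs_self _).trans (σ_le _))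
    rw [map_smul, smul_eq_mul]
  have g3 : (P ^ m) (P x - x) = coeff m (∑ j ∈ range (k + 1), T * Φ ^ j) (A x) -
      θ • coeff m (∑ j ∈ range (k + 1 + 1), T * Φ ^ j) x + coeff m (Gm P *
        (ι (γ θ ^ (k + 1) * (1 - X * γ θ)) * (Ψ ^ (k + 1) * C A))) x := by
    have e2 : ι (γ θ ^ (k + 1) * (1 - X * γ θ)) * (Ψ ^ (k + 1) * C A) =
        Φ ^ (k + 1) * C A - θ • (Φ ^ (k + 1 + 1) * C Dw) := by
      rw [f1, f2, mul_comm (γ θ ^ (k + 1)), map_mul ι (1 - _), map_sub, map_one, mul_assoc,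
        sub_mul, one_mul, mul_assoc (ι (γ θ ^ (k + 1)))]
    have e3 : ∀ K x, (P ^ m) x = coeff m (∑ j ∈ range K, T * Φ ^ j) x +
        coeff m (Gm P * Φ ^ K) x := fun K x => by
      rw [← add_apply, ← map_add, ← dec d0, Gm, coeff_mk]
    rw [e1, map_sub, map_smul, e3 (k + 1) (A _), e3 (k + 1 + 1) x, e2, mul_sub,
      mul_smul_comm, ← mul_assoc, ← mul_assoc, map_sub, csm, coeff_mul_C, coeff_mul_C,
      sub_apply, smul_apply, mul_apply_eq_comp, mul_apply_eq_comp, hD, smul_add]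
    abel
  have g4 := (outN h _ x m).trans (conv (γ θ ^ (k + 1) * (1 - X * γ θ))
    ((pΨ.pow (k + 1)).mul (PS.C pA)) hx m)
  have g6 := nb_tv h0 h1 (d := 1 / (4 * M)) (by positivity) hk (m + 1)
  have g7 := g4.trans (mul_le_mul g6 g5 (fl_nn ((pΨ.pow _).mul (PS.C pA)) m hx) (by positivity))
  have g9 := d1 (k + 1) (A x)
  have g10 := d1 (k + 1 + 1) x
  have g11 : ‖(P ^ m) (P x - x)‖ ≤
      2 * θ * (1 - fl (Φ ^ (k + 1 + 1)) m x) + 1 / (4 * M) * θ := by
    rw [g3]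
    refine (norm_add_le _ _).trans (add_le_add ((norm_sub_le _ _).trans ?_) g7)
    rw [norm_smul, (pAl _ m _ pw).norm, (pAl _ m _ hx).norm, Real.norm_eq_abs,
      abs_of_pos h0, eq_sub_of_add_eq g9, eq_sub_of_add_eq g10, x1]
    linarith
  have g12 := (hε.trans (hn _)).trans (mul_le_mul_of_nonneg_left g11 hM.le)
  have g13 : M * (1 / (4 * M) * θ) = θ / 4 := by field_simp
  rw [le_sub_comm, div_le_iff₀ (by positivity)]
  nlinarith

theorem visits {P U A : R} (h : Mk P) (eP : P = U + A) (pU : Po U) (pA : Po A) {W : Set ℕ}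
    (hA : ∀ i, i ∉ W → A (δ i) = 0) {c : ℝ} (hc : 0 < c) {n k : ℕ}
    (key : ∀ m ≤ n, ∀ w ∈ W, fl ((X * (C A * Gm U)) ^ (k + 1)) m (δ w) ≤ 1 - 1 / c) :
    ∀ m ≤ n, ∀ y, Pv y → fl (X * (C A * Gm P)) m y ≤ c * (k + 1) * σ y := by
  have s1 : ∀ x, σ (U x) + σ (A x) = σ x := fun x => by
    rw [← map_add, ← add_apply, ← eP, h.sg]
  have pΦ : PS (X * (C A * Gm U)) := PS.X.mul ((PS.C pA).mul (PS.gm pU))
  have pQ : PS (X * (C A * Gm P)) := PS.X.mul ((PS.C pA).mul (PS.gm h.po))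
  have e0 : X * (C A * Gm P) = X * (C A * Gm U) + X * (C A * Gm P) * (X * (C A * Gm U)) := by
    nth_rewrite 1 [d0 eP]
    rw [mul_add, mul_add, mul_assoc, mul_assoc]
  have e1 : X * (C A * Gm P) = X * C A + X * (C A * Gm P) * (X * C P) := by
    nth_rewrite 1 [gm2]
    rw [mul_add, mul_add, mul_one, mul_assoc, mul_assoc]
  have m1 := fun i m K => mass_le s1 pU PS.one (δ_pv i) m K pΦ
  have c0 : coeff 0 ((X * (C A * Gm U)) ^ (k + 1)) = 0 := by
    rw [pow_succ', mul_assoc, coeff_zero_X_mul]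
  generalize X * (C A * Gm U) = Φ at *
  generalize X * (C A * Gm P) = Q at *
  have v0 : 0 ≤ c * (k + 1) := by positivity
  intro m
  induction m using Nat.strong_induction_on with
  | _ m ih =>
  intro hm y hy
  have sup : ∀ F, PS F → coeff 0 F = 0 → ∀ x, Pv x →
      fl (Q * F) m x ≤ c * (k + 1) * fl F m x := by
    intro F hF F0 x hx
    rw [flm h, fl_app F, mul_sum, ← Nat.sum_antidiagonal_eq_sum_range_succ
      (fun s _ => c * (k + 1) * σ (coeff s F x)) m, ← Nat.sum_antidiagonal_swap]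
    refine sum_le_sum fun p hp => ?_
    have hp' := HasAntidiagonal.mem_antidiagonal.1 hp
    rcases Nat.eq_zero_or_pos p.1 with e | e
    · simp [e, F0]
    · exact ih _ (by simp only [Prod.fst_swap]; omega) (by simp only [Prod.fst_swap]; omega) _
        (hF _ x hx)
  rw [← hy.norm]
  refine (le_abs_self _).trans (bnd (fl Q m) _ (fun i => ?_) y)
  rw [Real.norm_eq_abs, abs_of_nonneg (fl_nn pQ m (δ_pv i))]
  by_cases hi : i ∈ W
  · have e2 : ∀ K : ℕ, fl Q m (δ i) ≤ K + fl (Q * Φ ^ K) m (δ i) := fun K => by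
      induction K with
      | zero => simp
      | succ K ih =>
        have := m1 i m (K + 1)
        rw [mul_one, fl_one, σ_δ] at this
        have e : Q * Φ ^ K = Φ ^ (K + 1) + Q * Φ ^ (K + 1) := by
          rw [pow_succ', ← mul_assoc, ← add_mul, ← e0]
        rw [e, fl_add] at ih
        push_cast
        linarith
    have e3 := sup _ (pΦ.pow (k + 1)) c0 _ (δ_pv i)
    have e4 := mul_le_mul_of_nonneg_left (key m hm i hi) v0
    have e5 : c * (k + 1) * (1 / c) = k + 1 := by field_simp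
    have e6 := e2 (k + 1)
    push_cast at e6
    linarith
  · have e2 := sup _ (PS.X.mul (PS.C h.po)) (coeff_zero_X_mul _) _ (δ_pv i)
    have e3 := mass_le (U := 0) (A := P) (fun x => by simp [h.sg]) Po.zero PS.one (δ_pv i) m 1
      (PS.X.mul ((PS.C h.po).mul (PS.gm Po.zero)))
    have e4 : Gm 0 = 1 := by rw [gm1, map_zero, zero_mul, mul_zero, add_zero]
    rw [e4, mul_one, mul_one, pow_one, fl_one, σ_δ] at e3
    rw [e1, fl_add, fl_C, hA i hi, map_zero, zero_add]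
    nlinarith

theorem lemA {P : R} (h : Mk P) {M : ℝ} (hM : 0 < M) {n : ℕ}
    (hn : ∀ m ≤ n, ∀ x, ‖x‖ ≤ M * ‖(P ^ m) x‖) {θ : ℝ} (h0 : 0 < θ) (h1 : θ ≤ 1 / 2) {W : Set ℕ}
    (hW : ∀ i ∈ W, θ / 2 ≤ ε P i ∧ ε P i ≤ θ) {k : ℕ} (hk : 2 ≤ (k + 1 : ℝ) * (1 / (4 * M)) ^ 2)
    (j : ℕ) : θ * ∑ i ∈ range n, σ (D W ((P ^ i) (δ j))) ≤ 8 * M * (k + 2) := by
  have DD : D Wᶜ * D W = 0 := by
    have := congrArg (· * D W) (D_add W)
    simpa [add_mul, D_D] using this
  have pA : Po ((P - (1 - θ) • 1) * D W) := h.hold fun i hi => by linarith [(hW i hi).2]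
  have pB : Po (P * D Wᶜ) := h.po.mul (Po.D _)
  have eP : P = ((1 - θ) • D W + P * D Wᶜ) + (P - (1 - θ) • 1) * D W := by
    rw [sub_mul, smul_mul_assoc, one_mul]
    nth_rewrite 1 [← mul_one P, ← D_add W, mul_add]
    abel
  have sA : ∀ x, σ (((P - (1 - θ) • 1) * D W) x) = θ * σ (D W x) := fun x => by
    simp only [mul_apply_eq_comp, sub_apply, smul_apply, one_apply_eq_self, map_sub, map_smul,
      h.sg, smul_eq_mul]
    ring
  have sB : ∀ x, σ ((P * D Wᶜ) x) = σ (D Wᶜ x) := fun x => h.sg _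
  have a1 : ∀ w ∈ W, P (δ w) - δ w = ((P - (1 - θ) • 1) * D W) (δ w) - θ • δ w := fun w hw => by
    simp only [mul_apply_eq_comp, D_δ hw, sub_apply, smul_apply, one_apply_eq_self,
      sub_smul, one_smul]
    abel
  have a2 : ∀ i, i ∉ W → ((P - (1 - θ) • 1) * D W) (δ i) = 0 := fun i hi => by
    rw [mul_apply_eq_comp, D_δ' hi, map_zero]
  obtain ⟨f1, f2⟩ := fac W h0 ((P - (1 - θ) • 1) * D W) (P * D Wᶜ) (by rw [mul_assoc, D_D])
    (by rw [mul_assoc, DD, mul_zero]) (k + 1)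
  generalize (P - (1 - θ) • 1) * D W = A at *
  generalize P * D Wᶜ = B at *
  have pU : Po ((1 - θ) • D W + B) := ((Po.D W).smul (by linarith)).add pB
  generalize (1 - θ) • D W + B = U at *
  have s2 : ∀ x, σ (B x) + σ ((θ⁻¹ • A) x) = σ x := fun x => by
    rw [smul_apply, map_smul, sA, smul_eq_mul, inv_mul_cancel_left₀ h0.ne', sB, add_comm, σ_D]
  have pΨ := PS.X.mul ((PS.C (pA.smul (c := θ⁻¹) (by positivity))).mul (PS.gm pB))
  have := visits h eP pU pA a2 (c := 8 * M) (by positivity) (k := k + 1) (fun m hm w hw => by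
    have aw : σ (A (δ w)) = θ := by rw [sA, D_δ hw, σ_δ, mul_one]
    refine key h hM h0 h1 (hn m hm) pA (PS.gm pU) (PS.X.mul ((PS.C pA).mul (PS.gm pU))) pΨ (d0 eP)
      hk f1 f2 (δ_pv w) (σ_δ w) (D_δ hw) aw (a1 w hw) ((hW w hw).1.trans (ε_le P w)) ?_
    have g5 := mass_le s2 pB (PS.C pA) (δ_pv w) m (k + 1) pΨ
    rwa [← one_mul (C A), fl_C 1, fl_one, aw, one_mul] at g5) n le_rfl _ (δ_pv j)
  push_cast at this
  rw [σ_δ, mul_one, fl_app, sum_range_succ'] at this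
  simp only [coeff_succ_X_mul, coeff_zero_X_mul, coeff_C_mul, Gm, coeff_mk, mul_apply_eq_comp,
    sA, zero_apply, map_zero, add_zero] at this
  rw [mul_sum]
  linarith

theorem lemC {P : R} (h : Mk P) {M : ℝ} (hM : 1 ≤ M) {n : ℕ}
    (hn : ∀ m ≤ n, ∀ x, ‖x‖ ≤ M * ‖(P ^ m) x‖) {k : ℕ} (hk : 2 ≤ (k + 1 : ℝ) * (1 / (4 * M)) ^ 2)
    (j : ℕ) (hb : ∀ m < n, σ (D {i | 1 / 4 < ε P i} ((P ^ m) (δ j))) ≤ 1 / (16 * M)) :
    n * ε P j ≤ 64 * M ^ 2 * (8 * M * (k + 2)) := by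
  have M0 : 0 < M := by linarith
  rcases le_or_gt (ε P j) 0 with he | he
  · exact (mul_nonpos_of_nonneg_of_nonpos n.cast_nonneg he).trans (by positivity)
  have lB := fun m (hm : m ≤ n) => lemB h M0 (hn m hm) j he hM
  set η := ε P j / (4 * M) with hη
  have η0 : 0 < η := by positivity
  obtain ⟨L, hL⟩ := pow_unbounded_of_one_lt (1 / η) (one_lt_two (α := ℝ))
  let W : ℕ → Set ℕ := fun l =>
    {i | η * 2 ^ (l + 1) ≤ 1 / 2 ∧ η * 2 ^ (l + 1) / 2 ≤ ε P i ∧ ε P i ≤ η * 2 ^ (l + 1)}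
  have h1 : ∀ l, ∑ m ∈ range n, σ (D (W l) ((P ^ m) (δ j))) ≤
      8 * M * (k + 2) / η / 2 * (1 / 2) ^ l := fun l => by
    have e : 8 * M * (k + 2) / η / 2 * (1 / 2) ^ l = 8 * M * (k + 2) / (η * 2 ^ (l + 1)) := by
      rw [one_div, inv_pow, pow_succ (2 : ℝ) l]
      field_simp
    rw [e]
    by_cases hl : η * 2 ^ (l + 1) ≤ 1 / 2
    · rw [le_div_iff₀' (by positivity)]
      exact lemA h M0 hn (by positivity) hl (fun i hi => hi.2) hk j
    · refine (le_of_eq (sum_eq_zero fun m _ => ?_)).trans (by positivity)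
      rw [show D (W l) ((P ^ m) (δ j)) = 0 from lp.ext (funext fun i => D_not _ fun hi => hl hi.1),
        map_zero]
  have h2 : ∀ y, Pv y → σ (D {i | η < ε P i} y) ≤
      σ (D {i | 1 / 4 < ε P i} y) + ∑ l ∈ range L, σ (D (W l) y) := fun y hy => by
    have : Pv (D {i | 1 / 4 < ε P i} y + ∑ l ∈ range L, D (W l) y - D {i | η < ε P i} y) := by
      intro i
      have e : (∑ l ∈ range L, D (W l) y) i = ∑ l ∈ range L, D (W l) y i := by
        rw [lp.coeFn_sum, Finset.sum_apply]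
      show 0 ≤ D _ y i + (∑ l ∈ range L, D (W l) y) i - D _ y i
      rw [e]
      have p1 := Po.D {i | 1 / 4 < ε P i} y hy i
      have p2 : 0 ≤ ∑ l ∈ range L, D (W l) y i := sum_nonneg fun l _ => Po.D _ y hy i
      by_cases hi : η < ε P i
      · rw [D_mem (W := {i | η < ε P i}) y hi]
        by_cases hi' : 1 / 4 < ε P i
        · rw [D_mem (W := {i | 1 / 4 < ε P i}) y hi']
          linarith
        obtain ⟨l, l1, l2⟩ := exists_nat_pow_near ((one_le_div η0).2 hi.le) (one_lt_two (α := ℝ))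
        rw [le_div_iff₀ η0] at l1
        rw [div_lt_iff₀ η0] at l2
        have l3 : l < L := by
          rw [div_lt_iff₀ η0] at hL
          refine (pow_lt_pow_iff_right₀ (one_lt_two (α := ℝ))).1 (lt_of_mul_lt_mul_right ?_ η0.le)
          linarith
        have := single_le_sum (f := fun l => D (W l) y i) (fun l _ => Po.D _ y hy i)
          (mem_range.2 l3)
        simp only at this
        rw [D_mem y (show i ∈ W l from ⟨by rw [pow_succ]; linarith, by rw [pow_succ]; linarith,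
          by linarith⟩)] at this
        linarith
      · rw [D_not (W := {i | η < ε P i}) y hi]
        linarith
    have := this.nn
    rw [map_sub, map_add, map_sum] at this
    linarith
  have h3 : ∑ m ∈ range n, 1 / (8 * M) ≤ ∑ m ∈ range n, (1 / (16 * M) +
      ∑ l ∈ range L, σ (D (W l) ((P ^ m) (δ j)))) := sum_le_sum fun m hm =>
    (lB m (mem_range.1 hm).le).trans ((h2 _ (h.po.pow m _ (δ_pv j))).trans
      (add_le_add_left (hb m (mem_range.1 hm)) _))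
  rw [sum_add_distrib, sum_comm, sum_const, sum_const, card_range, nsmul_eq_mul,
    nsmul_eq_mul] at h3
  have h4 := sum_le_sum fun l (_ : l ∈ range L) => h1 l
  rw [← mul_sum] at h4
  have h5 := mul_le_mul_of_nonneg_left (sum_geometric_two_le L)
    (show 0 ≤ 8 * M * (k + 2) / η / 2 by positivity)
  have h6 : (n : ℝ) * (1 / (16 * M)) ≤ 8 * M * (k + 2) / η := by
    have : 1 / (8 * M) = 2 * (1 / (16 * M)) := by
      field_simp
      ring
    rw [this] at h3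
    linarith
  rw [hη] at h6
  field_simp at h6
  nlinarith

end Pool.Agent.H.MP_725863_an
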